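import Pool.Agent.Y748.SH.Super

/-!
# Engulfing for thin maps (project SH)
-/

set_option autoImplicit false

open Set Filter Topology Metric Function MeasureTheory
open scoped Manifold ContDiff

noncomputable section

namespace Pool.Agent.Y748.SH
open Pool.Agent.Y522 Pool.Agent.Y691.SH

section thin

variable {n : ℕ} {X : Type} [TopologicalSpace X] [ChartedSpace (E n) X] {f : X → E n}
  {Y : Set (E n)}

/-- the inverse over the complement of `Y` is continuous -/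
theorem thin_inv_cont (h : ThinMap n f Y) {g : E n → X} (hg : ∀ y, y ∉ Y → f (g y) = y) {y : E n}
    (hy : y ∉ Y) : ContinuousAt g y := by
  rw [ContinuousAt, _root_.tendsto_nhds]
  intro U hU hgU
  have h1 : IsClosed (f '' Uᶜ) := h.proper.isClosedMap _ hU.isClosed_compl
  have h2 : y ∉ f '' Uᶜ := by
    rintro ⟨x, hx, hxy⟩
    have h3 := (h.bij y hy).unique hxy (hg y hy)
    rw [h3] at hx
    exact hx hgU
  filter_upwards [h1.isOpen_compl.mem_nhds h2, h.closed.isOpen_compl.mem_nhds hy] with z hz hzY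
  by_contra hcon
  exact hz ⟨g z, hcon, hg z hzY⟩

theorem thin_inj (h : ThinMap n f Y) {x x' : X} (hx : f x ∉ Y) (he : f x = f x') : x = x' :=
  (h.bij _ hx).unique rfl he.symm

end thin

theorem unit_norm {m : ℕ} (w : E m) : ‖st' 1 w‖ = 1 := by
  have h1 := st'_norm (r := 1) one_pos w
  have h2 : ‖st' 1 w‖ ^ 2 = 1 ^ 2 := h1
  exact (pow_left_inj₀ (norm_nonneg _) one_pos.le two_ne_zero).1 h2

theorem e0_norm {m : ℕ} : ‖(e0 : E (m + 1))‖ = 1 := by
  have h1 : ‖(e0 : E (m + 1))‖ ^ 2 = 1 ^ 2 := by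
    unfold e0; rw [norm_cn_sq]; simp
  exact (pow_left_inj₀ (norm_nonneg _) one_pos.le two_ne_zero).1 h1

theorem ne_zero_of_norm_one {n : ℕ} {u : E n} (h : ‖u‖ = 1) : u ≠ 0 := by
  rintro rfl
  rw [norm_zero] at h
  exact zero_ne_one h

/-- two unit vectors with a common positive multiple are equal -/
theorem unit_eq {n : ℕ} {u v : E n} {a b : ℝ} (hu : ‖u‖ = 1) (hv : ‖v‖ = 1) (ha : 0 < a)
    (hb : 0 < b) (h : a • u = b • v) : u = v := by
  have h1 : ‖a • u‖ = ‖b • v‖ := by rw [h]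
  rw [norm_smul, norm_smul, hu, hv, mul_one, mul_one, Real.norm_eq_abs, Real.norm_eq_abs,
    abs_of_pos ha, abs_of_pos hb] at h1
  rw [h1] at h
  exact smul_right_injective _ hb.ne' h

/-- **The induction step.** -/
theorem sphereStep3 (hS : StSardM) (hSl : StSlice) (hM : StMazur3) :
    ∀ m, StEng m → StBox3 m → StEng3 m := by
  intro m hE hB X _ _ _ _ _ F Y hF K hK
  have hFc : Continuous F := hF.proper.continuous
  -- a cube containing the image
  obtain ⟨M, hM0, hMK⟩ : ∃ M : ℝ, 0 < M ∧ ∀ x ∈ K, ∀ i, |(F x) i| < M := by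
    obtain ⟨C, hC⟩ := (hK.image hFc).isBounded.exists_norm_le
    refine ⟨max C 0 + 1, by positivity, fun x hx i => ?_⟩
    have h1 := hC (F x) ⟨x, hx, rfl⟩
    have h2 := le_max_left C 0
    have h3 : |(F x) i| ≤ ‖F x‖ := by
      have := PiLp.norm_apply_le (p := 2) (F x) i
      rwa [Real.norm_eq_abs] at this
    linarith
  set R₀ : ℝ := (m + 1) * (M + 1) with hR₀
  obtain ⟨c, ε, hMc, hcM, hε, hMε, hgap⟩ := exists_gap hF.closed hF.thin R₀ M
  have hc0 : 0 < c := hM0.trans hMc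
  have hεc : ε ≤ c := by linarith
  obtain ⟨q, hq, hq1, hq2⟩ := exists_q (ε := ε) m hM0 hMc hε hεc
  -- the complement of the exceptional set
  set U₀ : Set X := F ⁻¹' Yᶜ with hU₀
  have hU₀o : IsOpen U₀ := hF.closed.isOpen_compl.preimage hFc
  have hGs : ∀ x ∈ U₀, ContMDiffAt (𝓡 (m + 1)) 𝓘(ℝ, ℝ) ∞ (fun x => Gs q c (F x)) x := by
    intro x hx
    have h1 : ContMDiffAt (𝓡 (m + 1)) 𝓘(ℝ, ℝ) ∞ (Gs q c) (F x) :=
      (Gs_contDiff q c).contMDiff.contMDiffAt
    exact h1.comp x (hF.smooth x hx)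
  obtain ⟨s, hs1, hs2, hs3⟩ := exists_regular3 hS (fun x => Gs q c (F x)) hU₀o hGs
    (show (1 / 2 : ℝ) < 1 by norm_num)
  have hs0 : 0 < s := by linarith
  -- level sets are disjoint from `Y`
  have hbd : ∀ y : E (m + 1), Gs q c y ≤ s → ‖y‖ ≤ R₀ := by
    intro y hy
    refine norm_le_of_coord (by linarith) fun i => ?_
    have := coord_lt hq hc0 (hy.trans_lt hs2) i
    linarith
  have hlev : ∀ y : E (m + 1), Gs q c y = s → y ∉ Y := by
    intro y hy hyY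
    obtain ⟨i, hi⟩ := exists_coord hc0 hεc hq2 hs1 hy
    have := coord_lt hq hc0 (hy.le.trans_lt hs2) i
    exact hgap y hyY (hbd y hy.le) i ⟨hi, this.le⟩
  set φ : X → ℝ := fun x => Gs q c (F x) - s with hφ
  have hφc : Continuous φ := ((Gs_contDiff q c).continuous.comp hFc).sub continuous_const
  have hφs : ∀ x ∈ U₀, ContMDiffAt (𝓡 (m + 1)) 𝓘(ℝ, ℝ) ∞ φ x := fun x hx =>
    (hGs x hx).sub contMDiffAt_const
  have hφU : ∀ x, φ x = 0 → x ∈ U₀ := fun x hx => hlev (F x) (sub_eq_zero.1 hx)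
  have hφd : ∀ x, φ x = 0 → mfderiv (𝓡 (m + 1)) 𝓘(ℝ, ℝ) φ x ≠ 0 := fun x hx =>
    mfderiv_sub_const3 _ s x (hGs x (hφU x hx)) (hs3 x (hφU x hx) (sub_eq_zero.1 hx))
  have hBc : IsCompact {x | φ x ≤ 0} := by
    refine IsCompact.of_isClosed_subset
      (hF.proper.isCompact_preimage (isCompact_closedBall (0 : E (m + 1)) R₀))
      (isClosed_le hφc continuous_const) fun x hx => ?_
    have h1 : Gs q c (F x) ≤ s := sub_nonpos.1 hx
    have := hbd (F x) h1
    simpa using this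
  obtain ⟨U, k, hU, hBU, hk, hkd⟩ := hB X F Y hF _ hBc
  -- the inverse over the complement of `Y`
  obtain ⟨g₀, hg₀⟩ : ∃ g₀ : E (m + 1) → X, ∀ y, y ∉ Y → F (g₀ y) = y := by
    have hne : Nonempty X := by
      have h1 : Gs q c (lam q c s (e0 : E (m + 1)) • e0) = s :=
        Gs_lam hq hc0 hs0 (ne_zero_of_norm_one e0_norm)
      exact ⟨(hF.bij _ (hlev _ h1)).exists.choose⟩
    classical
    refine ⟨fun y => if hy : y ∈ Y then Classical.arbitrary X else (hF.bij y hy).exists.choose,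
      fun y hy => ?_⟩
    simp only [hy, dite_false]
    exact (hF.bij y hy).exists.choose_spec
  have hg₀F : ∀ x ∈ U₀, g₀ (F x) = x := fun x hx =>
    (thin_inj hF hx (hg₀ (F x) hx).symm).symm
  set p₀ : X := g₀ (lam q c s (e0 : E (m + 1)) • e0) with hp₀
  have : Nonempty X := ⟨p₀⟩
  have hE0 : (e0 : E (m + 1)) ≠ 0 := ne_zero_of_norm_one e0_norm
  have hFp₀ : F p₀ = lam q c s (e0 : E (m + 1)) • e0 :=
    hg₀ _ (hlev _ (Gs_lam hq hc0 hs0 hE0))
  have hp0 : φ p₀ = 0 := by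
    simp only [hφ, hFp₀]
    rw [Gs_lam hq hc0 hs0 hE0, sub_self]
  have hp₀U : p₀ ∈ U := hBU (show φ p₀ ≤ 0 from hp0.le)
  obtain ⟨κ, hκ⟩ : ∃ κ : E (m + 1) → X, ∀ x ∈ U, κ (k x) = x :=
    ⟨invFunOn k U, fun x hx => hk.leftInvOn_invFunOn hx⟩
  have hκd : ∀ x ∈ U, LD (m + 1) κ (k x) := fun x hx => LD.inverse hU hkd hκ hx
  have hN : IsOpen (k '' U) := isOpen_image_of_LD hU hkd
  have hψc : ContinuousOn (φ ∘ κ) (k '' U) := by
    rintro _ ⟨x, hx, rfl⟩
    exact (hφc.continuousAt.comp (hκd x hx).continuousAt).continuousWithinAt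
  have hψd0 : ∀ x ∈ U, x ∈ U₀ → ContDiffAt ℝ ∞ (φ ∘ κ) (k x) := by
    intro x hx hx0
    refine contMDiffAt_iff_contDiffAt.1 (ContMDiffAt.comp _ ?_ (hκd x hx).contMDiffAt)
    rw [hκ x hx]
    exact hφs x hx0
  have hψd : ∀ z ∈ k '' U, (φ ∘ κ) z = 0 → ∀ᶠ y in 𝓝 z, ContDiffAt ℝ ∞ (φ ∘ κ) y := by
    rintro _ ⟨x, hx, rfl⟩ hz
    simp only [Function.comp, hκ x hx] at hz
    have h1 : ∀ᶠ y in 𝓝 (k x), κ y ∈ U₀ := by
      refine (hκd x hx).continuousAt (hU₀o.mem_nhds ?_)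
      rw [hκ x hx]
      exact hφU x hz
    filter_upwards [h1, hN.mem_nhds ⟨x, hx, rfl⟩] with y hy hyN
    obtain ⟨x', hx', rfl⟩ := hyN
    rw [hκ x' hx'] at hy
    exact hψd0 x' hx' hy
  have hkc : ContinuousOn k U := fun x hx => (hkd x hx).continuousAt.continuousWithinAt
  have hcomp : IsCompact {z | z ∈ k '' U ∧ (φ ∘ κ) z ≤ 0} := by
    have h1 : {z | z ∈ k '' U ∧ (φ ∘ κ) z ≤ 0} = k '' {x | φ x ≤ 0} := by
      ext z
      constructor
      · rintro ⟨⟨x, hx, rfl⟩, h⟩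
        simp only [Function.comp, hκ x hx] at h
        exact ⟨x, h, rfl⟩
      · rintro ⟨x, hx, rfl⟩
        refine ⟨⟨x, hBU hx, rfl⟩, ?_⟩
        simp only [Function.comp, hκ x (hBU hx)]
        exact hx
    rw [h1]
    exact hBc.image_of_continuousOn (hkc.mono hBU)
  have hreg : ∀ z ∈ k '' U, (φ ∘ κ) z = 0 → fderiv ℝ (φ ∘ κ) z ≠ 0 := by
    rintro _ ⟨x, hx, rfl⟩ hz hcon
    simp only [Function.comp, hκ x hx] at hz
    apply hφd x hz
    have h0 : φ =ᶠ[𝓝 x] (φ ∘ κ) ∘ k := by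
      filter_upwards [hU.mem_nhds hx] with y hy
      simp [hκ y hy]
    have h1 : mfderiv (𝓡 (m + 1)) 𝓘(ℝ, ℝ) φ x =
        mfderiv (𝓡 (m + 1)) 𝓘(ℝ, ℝ) ((φ ∘ κ) ∘ k) x := h0.mfderiv_eq
    have h3 : MDifferentiableAt (𝓡 (m + 1)) 𝓘(ℝ, ℝ) (φ ∘ κ) (k x) :=
      mdifferentiableAt_iff_differentiableAt.2
        ((hψd0 x hx (hφU x hz)).differentiableAt (by simp))
    have h2 : mfderiv (𝓡 (m + 1)) 𝓘(ℝ, ℝ) ((φ ∘ κ) ∘ k) x =
        (mfderiv (𝓡 (m + 1)) 𝓘(ℝ, ℝ) (φ ∘ κ) (k x)).comp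
          (mfderiv (𝓡 (m + 1)) (𝓡 (m + 1)) k x) :=
      mfderiv_comp _ h3 (hkd _ hx).mdifferentiableAt
    have h4 : mfderiv (𝓡 (m + 1)) 𝓘(ℝ, ℝ) (φ ∘ κ) (k x) = 0 := by
      rw [mfderiv_eq_fderiv]
      exact hcon
    rw [h1, h2, h4]
    exact ContinuousLinearMap.zero_comp _
  -- engulfing in the superball
  have heng : ∀ K' : Set (E (m + 1)), IsCompact K' →
      (∀ z ∈ K', z ∈ k '' U ∧ (φ ∘ κ) z = 0 ∧ z ≠ k p₀) →
      ∃ (f : E m → E (m + 1)) (R : ℝ), Injective f ∧ ContDiff ℝ ∞ f ∧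
        (∀ x, Injective (fderiv ℝ f x)) ∧
        (∀ x, f x ∈ k '' U ∧ (φ ∘ κ) (f x) = 0 ∧ f x ≠ k p₀) ∧ K' ⊆ f '' closedBall 0 R := by
    intro K' hK' hK'1
    have hκc : ContinuousOn κ K' := by
      intro z hz
      obtain ⟨x, hx, rfl⟩ := (hK'1 z hz).1
      exact (hκd x hx).continuousAt.continuousWithinAt
    have hne : ∀ x, φ x = 0 → F x ≠ 0 := by
      intro x hx h0
      have h1 : Gs q c (F x) = s := sub_eq_zero.1 hx
      rw [h0] at h1
      unfold Gs at h1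
      simp only [PiLp.zero_apply, zero_div] at h1
      rw [Finset.sum_eq_zero (fun i _ => zero_pow (by omega))] at h1
      linarith
    have hun : ∀ x, φ x = 0 → ‖‖F x‖⁻¹ • F x‖ = 1 := by
      intro x hx
      have h1 : ‖F x‖ ≠ 0 := norm_ne_zero_iff.2 (hne x hx)
      rw [norm_smul, norm_inv, norm_norm, inv_mul_cancel₀ h1]
    have hlamF : ∀ x, φ x = 0 →
        lam q c s (‖F x‖⁻¹ • F x) • (‖F x‖⁻¹ • F x) = F x := by
      intro x hx
      have h1 : ‖F x‖ ≠ 0 := norm_ne_zero_iff.2 (hne x hx)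
      have h2 : ‖F x‖ • (‖F x‖⁻¹ • F x) = F x := by
        rw [smul_smul, mul_inv_cancel₀ h1, one_smul]
      have h3 : ‖F x‖ = lam q c s (‖F x‖⁻¹ • F x) := by
        refine eq_lam hq hc0 (norm_pos_iff.2 (hne x hx)) (ne_zero_of_norm_one (hun x hx)) ?_
        rw [h2]
        exact sub_eq_zero.1 hx
      conv_lhs => rw [← h3]
      exact h2
    have hhead : ∀ x, x ≠ p₀ → φ x = 0 → (‖F x‖⁻¹ • F x) 0 ≠ 1 := by
      intro x hx hx0
      refine head_ne (r := 1) ?_ (fun h => hx ?_)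
      · rw [hun x hx0]
      · rw [one_smul] at h
        have h1 := hlamF x hx0
        rw [h] at h1
        exact thin_inj hF (hφU x hx0) (by rw [← h1, hFp₀])
    have hsu : ∀ w : E m, lam q c s (st' 1 w) • st' 1 w ∉ Y := fun w =>
      hlev _ (Gs_lam hq hc0 hs0 (ne_zero_of_norm_one (unit_norm w)))
    obtain ⟨f, R, hfi, hfs, hfd, hfW, hfK⟩ := hSl m hE X ({x | x ≠ p₀} ∩ U₀) φ
      (fun x => st 1 (‖F x‖⁻¹ • F x))
      (fun w => g₀ (lam q c s (st' 1 w) • st' 1 w)) (isOpen_ne.inter hU₀o)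
      (fun x hx => hφs x hx.2)
      (fun x _ hx => hφd x hx)
      (by
        intro x hx hx0
        have h1 : ContMDiffAt (𝓡 (m + 1)) (𝓡 m) ∞
            (fun y : E (m + 1) => st 1 (‖y‖⁻¹ • y)) (F x) := by
          refine ContDiffAt.contMDiffAt ?_
          have h2 : ContDiffAt ℝ ∞ (fun y : E (m + 1) => ‖y‖⁻¹ • y) (F x) :=
            ((contDiffAt_norm ℝ (hne x hx0)).inv (norm_ne_zero_iff.2 (hne x hx0))).smul
              contDiffAt_id
          exact ContDiffAt.comp (g := st 1) (f := fun y : E (m + 1) => ‖y‖⁻¹ • y) (F x)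
            (st_contDiffAt (r := 1) (hhead x hx.1 hx0)) h2
        exact h1.comp x (hF.smooth x hx.2))
      (by
        have h1 : Continuous (fun w : E m => lam q c s (st' 1 w) • st' 1 w) :=
          (lam_continuous q c s (st'_cont one_pos)
            (fun w => ne_zero_of_norm_one (unit_norm w))).smul (st'_cont one_pos)
        rw [continuous_iff_continuousAt]
        intro w
        exact ContinuousAt.comp (f := fun w : E m => lam q c s (st' 1 w) • st' 1 w)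
          (thin_inv_cont hF hg₀ (hsu w)) h1.continuousAt)
      (by
        intro w
        refine ⟨⟨fun h => ?_, ?_⟩, ?_⟩
        · have h1 : F (g₀ (lam q c s (st' 1 w) • st' 1 w)) = F p₀ := by rw [h]
          rw [hg₀ _ (hsu w), hFp₀] at h1
          have h2 := unit_eq (unit_norm w) e0_norm
            (lam_pos hc0 hs0 (ne_zero_of_norm_one (unit_norm w))) (lam_pos hc0 hs0 hE0) h1
          exact st'_ne one_pos w (by rw [one_smul]; exact h2)
        · show F _ ∉ Y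
          rw [hg₀ _ (hsu w)]
          exact hsu w
        · simp only [hφ]
          rw [hg₀ _ (hsu w), Gs_lam hq hc0 hs0 (ne_zero_of_norm_one (unit_norm w)), sub_self])
      (by
        intro w
        have hl := lam_pos (q := q) hc0 hs0 (ne_zero_of_norm_one (unit_norm w))
        show st 1 (‖F (g₀ _)‖⁻¹ • F (g₀ _)) = w
        rw [hg₀ _ (hsu w), norm_smul, unit_norm, mul_one, Real.norm_eq_abs, abs_of_pos hl,
          smul_smul, inv_mul_cancel₀ hl.ne', one_smul]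
        exact st_st' one_pos w)
      (by
        intro x hx hx0
        show g₀ (lam q c s (st' 1 (st 1 (‖F x‖⁻¹ • F x))) • st' 1 (st 1 (‖F x‖⁻¹ • F x))) = x
        rw [st'_st (r := 1) one_pos (by rw [hun x hx0]) (hhead x hx.1 hx0), hlamF x hx0]
        exact hg₀F x hx.2)
      (κ '' K') (hK'.image_of_continuousOn hκc)
      (by
        rintro _ ⟨z, hz, rfl⟩
        obtain ⟨⟨x, hx, rfl⟩, hz1, hz2⟩ := hK'1 z hz
        refine ⟨⟨?_, hφU _ hz1⟩, hz1⟩
        change κ (k x) ≠ p₀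
        rw [hκ x hx]
        rintro rfl
        exact hz2 rfl)
    have hfU : ∀ x, f x ∈ U := fun x => hBU (show φ (f x) ≤ 0 from (hfW x).2.le)
    have hcd : ContMDiff (𝓡 m) (𝓡 (m + 1)) ∞ (k ∘ f) := fun x =>
      (hkd _ (hfU x)).contMDiffAt.comp x hfs.contMDiffAt
    refine ⟨k ∘ f, R, ?_, contMDiff_iff_contDiff.1 hcd, ?_, ?_, ?_⟩
    · intro a b hab
      exact hfi (hk (hfU a) (hfU b) hab)
    · intro x
      have h1 : fderiv ℝ (k ∘ f) x = mfderiv (𝓡 m) (𝓡 (m + 1)) (k ∘ f) x :=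
        mfderiv_eq_fderiv.symm
      have h2 : mfderiv (𝓡 m) (𝓡 (m + 1)) (k ∘ f) x =
          (mfderiv (𝓡 (m + 1)) (𝓡 (m + 1)) k (f x)).comp (mfderiv (𝓡 m) (𝓡 (m + 1)) f x) :=
        mfderiv_comp x (hkd _ (hfU x)).mdifferentiableAt (hfs.mdifferentiableAt (by simp))
      intro a b hab
      rw [h1, h2] at hab
      exact hfd x ((hkd _ (hfU x)).mfderiv_injective hab)
    · intro x
      refine ⟨⟨f x, hfU x, rfl⟩, ?_, ?_⟩
      · simp only [Function.comp, hκ _ (hfU x)]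
        exact (hfW x).2
      · intro h
        exact (hfW x).1.1 (hk (hfU x) hp₀U h)
    · intro z hz
      obtain ⟨⟨x, hx, rfl⟩, hz1, hz2⟩ := hK'1 z hz
      obtain ⟨y, hy, hyx⟩ := hfK ⟨k x, hz, rfl⟩
      refine ⟨y, hy, ?_⟩
      rw [hκ x hx] at hyx
      simp only [Function.comp, hyx]
  have hKU : ∀ x ∈ K, x ∈ U ∧ φ x < 0 := by
    intro x hx
    have h1 : φ x < 0 := by
      have h2 := Gs_lt_half hc0 hM0 hq1 (hMK x hx)
      simp only [hφ]
      linarith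
    exact ⟨hBU h1.le, h1⟩
  obtain ⟨g, hgi, hgd, hgL, hgN⟩ := hM m (k '' U) (φ ∘ κ) (k p₀) hN hψc hψd hcomp hreg
    ⟨p₀, hp₀U, rfl⟩ (by simp only [Function.comp, hκ _ hp₀U]; exact hp0) heng (k '' K)
    (hK.image_of_continuousOn (hkc.mono fun x hx => (hKU x hx).1))
    (by
      rintro _ ⟨x, hx, rfl⟩
      refine ⟨⟨x, (hKU x hx).1, rfl⟩, ?_⟩
      simp only [Function.comp, hκ _ (hKU x hx).1]
      exact (hKU x hx).2)
  have hkκ : ∀ z ∈ k '' U, k (κ z) = z := by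
    rintro _ ⟨x, hx, rfl⟩
    rw [hκ x hx]
  refine ⟨fun x => κ (g x), ?_, ?_, ?_⟩
  · intro a b hab
    apply hgi
    rw [← hkκ _ (hgN a).1, ← hkκ _ (hgN b).1]
    exact congrArg k hab
  · intro x
    refine LD.comp_fun ?_ (hgd x)
    obtain ⟨y, hy, hyx⟩ := (hgN x).1
    rw [← hyx]
    exact hκd y hy
  · intro x hx
    obtain ⟨y, hy⟩ := hgL ⟨x, hx, rfl⟩
    refine ⟨y, ?_⟩
    simp only [hy]
    exact hκ x (hKU x hx).1

end Pool.Agent.Y748.SH
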