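import Pool.Agent.Y522.Stm3
import Pool.Agent.Y522.Tools
import Pool.Agent.Y691.SH.Sphere

/-!
# Superballs which avoid thin sets, regular values on open subsets (project SH)
-/

set_option autoImplicit false

open Set Filter Topology Metric Function MeasureTheory
open scoped Manifold ContDiff

noncomputable section

namespace Pool.Agent.Y748.SH
open Pool.Agent.Y522 Pool.Agent.Y691.SH

/-- regular values of a function which is smooth on an open subset -/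
theorem exists_regular3 (hS : StSardM) {n : ℕ} {X : Type} [TopologicalSpace X]
    [SecondCountableTopology X] [ChartedSpace (E n) X] [IsManifold (𝓡 n) ∞ X] (G : X → ℝ)
    {U₀ : Set X} (hU₀ : IsOpen U₀)
    (hG : ∀ x ∈ U₀, ContMDiffAt (𝓡 n) 𝓘(ℝ, ℝ) ∞ G x) {a b : ℝ} (hab : a < b) :
    ∃ s, a < s ∧ s < b ∧ ∀ x ∈ U₀, G x = s → mfderiv (𝓡 n) 𝓘(ℝ, ℝ) G x ≠ 0 := by
  let W : TopologicalSpace.Opens X := ⟨U₀, hU₀⟩
  have hF : ContMDiff (𝓡 n) 𝓘(ℝ, ℝ) ∞ (fun x : W => G x) := fun x =>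
    (hG x x.2).comp x contMDiff_subtype_val.contMDiffAt
  obtain ⟨s, h1, h2, h3⟩ := exists_regular hS (fun x : W => G x) hF hab
  refine ⟨s, h1, h2, fun x hx hxs hcon => h3 ⟨x, hx⟩ hxs ?_⟩
  have h4 : MDifferentiableAt (𝓡 n) 𝓘(ℝ, ℝ) G ((⟨x, hx⟩ : W) : X) :=
    (hG x hx).mdifferentiableAt (by simp)
  have h5 : MDifferentiableAt (𝓡 n) (𝓡 n) (Subtype.val : W → X) ⟨x, hx⟩ :=
    contMDiff_subtype_val.contMDiffAt.mdifferentiableAt (n := ∞) (by simp)
  have h6 : mfderiv (𝓡 n) 𝓘(ℝ, ℝ) (G ∘ (Subtype.val : W → X)) ⟨x, hx⟩ =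
      (mfderiv (𝓡 n) 𝓘(ℝ, ℝ) G ((⟨x, hx⟩ : W) : X)).comp
        (mfderiv (𝓡 n) (𝓡 n) (Subtype.val : W → X) ⟨x, hx⟩) := mfderiv_comp _ h4 h5
  have h7 : (fun x : W => G x) = G ∘ (Subtype.val : W → X) := rfl
  rw [h7, h6]
  have h8 : mfderiv (𝓡 n) 𝓘(ℝ, ℝ) G ((⟨x, hx⟩ : W) : X) = 0 := hcon
  rw [h8]
  exact ContinuousLinearMap.zero_comp _

/-- subtracting a constant does not change the differential -/
theorem mfderiv_sub_const3 {n : ℕ} {X : Type} [TopologicalSpace X]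
    [ChartedSpace (E n) X] (f : X → ℝ) (s : ℝ) (x : X)
    (hf : ContMDiffAt (𝓡 n) 𝓘(ℝ, ℝ) ∞ f x)
    (h : mfderiv (𝓡 n) 𝓘(ℝ, ℝ) f x ≠ 0) :
    mfderiv (𝓡 n) 𝓘(ℝ, ℝ) (fun y => f y - s) x ≠ 0 := by
  intro hcon
  apply h
  have hg : ContMDiffAt (𝓡 n) 𝓘(ℝ, ℝ) ∞ (fun y => f y - s) x := hf.sub contMDiffAt_const
  have hgd : MDifferentiableAt (𝓡 n) 𝓘(ℝ, ℝ) (fun y => f y - s) x :=
    hg.mdifferentiableAt (by simp)
  have ht : MDifferentiableAt 𝓘(ℝ, ℝ) 𝓘(ℝ, ℝ) (fun u : ℝ => u + s) (f x - s) :=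
    (differentiableAt_id.add_const s).mdifferentiableAt
  have h1 : mfderiv (𝓡 n) 𝓘(ℝ, ℝ) ((fun u : ℝ => u + s) ∘ (fun y => f y - s)) x =
      (mfderiv 𝓘(ℝ, ℝ) 𝓘(ℝ, ℝ) (fun u : ℝ => u + s) (f x - s)).comp
        (mfderiv (𝓡 n) 𝓘(ℝ, ℝ) (fun y => f y - s) x) := mfderiv_comp x ht hgd
  have h2 : ((fun u : ℝ => u + s) ∘ (fun y => f y - s)) = f := by
    funext y; simp
  rw [h2, hcon] at h1
  rw [h1]
  exact ContinuousLinearMap.comp_zero _

/-- an interval of values which the coordinates of the points of `Y` do not take -/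
theorem exists_gap {n : ℕ} {Y : Set (E n)} (hY : IsClosed Y)
    (hthin : ∀ (i : Fin n) (R : ℝ), interior ((fun y : E n => y i) '' (Y ∩ closedBall 0 R)) = ∅)
    (R M : ℝ) : ∃ c ε : ℝ, M < c ∧ c < M + 1 ∧ 0 < ε ∧ M < c - ε ∧
      ∀ y ∈ Y, ‖y‖ ≤ R → ∀ i, ¬ (c - ε < |y i| ∧ |y i| ≤ c) := by
  set P : Fin n → Set ℝ := fun i => (fun y : E n => y i) '' (Y ∩ closedBall 0 R) with hP
  have hPc : ∀ i, IsCompact (P i) := fun i =>
    ((isCompact_closedBall (0 : E n) R).inter_left hY).image (by fun_prop)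
  set Q : Fin n → Set ℝ := fun i => (fun t : ℝ => -t) '' P i with hQ
  have hQc : ∀ i, IsCompact (Q i) := fun i => (hPc i).image (by fun_prop)
  have hPd : ∀ i, Dense (P i)ᶜ := fun i => interior_eq_empty_iff_dense_compl.1 (hthin i R)
  have hQd : ∀ i, Dense (Q i)ᶜ := by
    intro i
    rw [← interior_eq_empty_iff_dense_compl]
    have h1 : Q i = (Homeomorph.neg ℝ) '' P i := rfl
    rw [h1, ← Homeomorph.image_interior, hthin i R, image_empty]
  set f : Fin n → Set ℝ := fun i => (P i)ᶜ ∩ (Q i)ᶜ with hf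
  have hfo : ∀ i, IsOpen (f i) := fun i =>
    (hPc i).isClosed.isOpen_compl.inter (hQc i).isClosed.isOpen_compl
  have hfd : ∀ i, Dense (f i) := fun i =>
    (hPd i).inter_of_isOpen_left (hQd i) (hPc i).isClosed.isOpen_compl
  have hd : Dense (⋂ i, f i) := dense_iInter_of_isOpen hfo hfd
  have ho : IsOpen (⋂ i, f i) := isOpen_iInter_of_finite hfo
  obtain ⟨c, hc1, hc2⟩ := hd.exists_mem_open (isOpen_Ioo (a := M) (b := M + 1))
    (nonempty_Ioo.2 (by linarith))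
  have ho2 : IsOpen ((⋂ i, f i) ∩ Ioo M (M + 1)) := ho.inter isOpen_Ioo
  obtain ⟨ε, hε, hball⟩ := Metric.isOpen_iff.1 ho2 c ⟨hc1, hc2⟩
  refine ⟨c, ε / 2, hc2.1, hc2.2, by linarith, ?_, ?_⟩
  · have h1 : c - ε / 2 ∈ ball c ε := by
      rw [mem_ball, Real.dist_eq, abs_lt]; constructor <;> linarith
    exact (hball h1).2.1
  · intro y hy hyR i ⟨h1, h2⟩
    have h3 : |y i| ∈ ball c ε := by
      rw [mem_ball, Real.dist_eq, abs_lt]; constructor <;> linarith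
    have h4 := (hball h3).1
    rw [mem_iInter] at h4
    have h5 : y i ∈ P i := ⟨y, ⟨hy, by simpa using hyR⟩, rfl⟩
    rcases abs_choice (y i) with h | h
    · rw [h] at h4
      exact (h4 i).1 h5
    · rw [h] at h4
      exact (h4 i).2 ⟨y i, h5, rfl⟩

/-! ### The superball -/

/-- the gauge function of the superball -/
def Gs {n : ℕ} (q : ℕ) (c : ℝ) (y : E n) : ℝ := ∑ i, (y i / c) ^ (2 * q)

theorem Gs_contDiff {n : ℕ} (q : ℕ) (c : ℝ) : ContDiff ℝ ∞ (Gs q c : E n → ℝ) := by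
  unfold Gs
  fun_prop

theorem Gs_term_nonneg {n : ℕ} (q : ℕ) (c : ℝ) (y : E n) (i : Fin n) :
    0 ≤ (y i / c) ^ (2 * q) := by
  rw [pow_mul]; positivity

theorem Gs_term_le {n : ℕ} (q : ℕ) (c : ℝ) (y : E n) (i : Fin n) :
    (y i / c) ^ (2 * q) ≤ Gs q c y :=
  Finset.single_le_sum (f := fun i => (y i / c) ^ (2 * q))
    (fun j _ => Gs_term_nonneg q c y j) (Finset.mem_univ i)

theorem pow_abs_eq {n : ℕ} (q : ℕ) {c : ℝ} (hc : 0 < c) (y : E n) (i : Fin n) :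
    (y i / c) ^ (2 * q) = (|y i| / c) ^ (2 * q) := by
  rw [pow_mul, pow_mul]
  congr 1
  rw [div_pow, div_pow, sq_abs]

theorem norm_le_of_coord {m : ℕ} {y : E (m + 1)} {a : ℝ} (ha : 0 ≤ a) (h : ∀ i, |y i| ≤ a) :
    ‖y‖ ≤ (m + 1) * a := by
  have h1 : ‖y‖ ^ 2 ≤ ((m + 1) * a) ^ 2 := by
    rw [EuclideanSpace.norm_sq_eq]
    calc ∑ i, ‖y i‖ ^ 2 ≤ ∑ _i : Fin (m + 1), a ^ 2 := by
          refine Finset.sum_le_sum fun i _ => ?_
          have := h i
          rw [Real.norm_eq_abs]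
          exact pow_le_pow_left₀ (abs_nonneg _) this 2
      _ = (m + 1) * a ^ 2 := by simp
      _ ≤ ((m + 1) * a) ^ 2 := by
          have h2 : (1 : ℝ) ≤ m + 1 := by
            have : (0 : ℝ) ≤ m := Nat.cast_nonneg m
            linarith
          have h3 : 0 ≤ a ^ 2 := sq_nonneg a
          nlinarith [mul_nonneg (mul_nonneg (by linarith : (0:ℝ) ≤ m + 1)
            (by linarith : (0:ℝ) ≤ (m : ℝ) + 1 - 1)) h3]
  exact le_of_sq_le_sq h1 (by positivity)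

section
variable {m q : ℕ} {c M ε s : ℝ} {y : E (m + 1)}

theorem coord_lt (hq : 1 ≤ q) (hc : 0 < c) (h : Gs q c y < 1) (i : Fin (m + 1)) : |y i| < c := by
  have h1 := (Gs_term_le q c y i).trans_lt h
  rw [pow_abs_eq q hc] at h1
  have h2 : |y i| / c < 1 := by
    by_contra hcon
    push Not at hcon
    exact absurd h1 (not_lt.2 (one_le_pow₀ hcon))
  rwa [div_lt_one hc] at h2

theorem exists_coord (hc : 0 < c) (hε : ε ≤ c)
    (hq2 : (1 - ε / c) ^ (2 * q) < 1 / (2 * (m + 1)))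
    (hs : 1 / 2 < s) (h : Gs q c y = s) : ∃ i, c - ε < |y i| := by
  by_contra hcon
  push Not at hcon
  have h0 : 0 ≤ 1 - ε / c := by
    rw [sub_nonneg, div_le_one hc]; exact hε
  have h1 : Gs q c y ≤ ∑ _i : Fin (m + 1), (1 - ε / c) ^ (2 * q) := by
    refine Finset.sum_le_sum fun i _ => ?_
    rw [pow_abs_eq q hc]
    refine pow_le_pow_left₀ (by positivity) ?_ _
    have := hcon i
    rw [div_le_iff₀ hc]
    have h2 : (1 - ε / c) * c = c - ε := by field_simp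
    rw [h2]; exact this
  rw [h, Finset.sum_const, Finset.card_univ, Fintype.card_fin, nsmul_eq_mul] at h1
  push_cast at h1
  have h3 : (0 : ℝ) < m + 1 := by positivity
  have h4 : ((m : ℝ) + 1) * (1 - ε / c) ^ (2 * q) < (m + 1) * (1 / (2 * (m + 1))) :=
    mul_lt_mul_of_pos_left hq2 h3
  have h5 : ((m : ℝ) + 1) * (1 / (2 * (m + 1))) = 1 / 2 := by field_simp
  linarith

theorem Gs_lt_half (hc : 0 < c) (hM : 0 < M)
    (hq1 : (m + 1) * (M / c) ^ (2 * q) < 1 / 2) (h : ∀ i, |y i| < M) : Gs q c y < 1 / 2 := by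
  refine lt_of_le_of_lt ?_ hq1
  have h1 : Gs q c y ≤ ∑ _i : Fin (m + 1), (M / c) ^ (2 * q) := by
    refine Finset.sum_le_sum fun i _ => ?_
    rw [pow_abs_eq q hc]
    refine pow_le_pow_left₀ (by positivity) ?_ _
    have := h i
    gcongr
  rw [Finset.sum_const, Finset.card_univ, Fintype.card_fin, nsmul_eq_mul] at h1
  push_cast at h1
  exact h1

/-- the choice of the exponent -/
theorem exists_q (m : ℕ) (hM : 0 < M) (hc : M < c) (hε : 0 < ε) (hεc : ε ≤ c) :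
    ∃ q : ℕ, 1 ≤ q ∧ (m + 1) * (M / c) ^ (2 * q) < 1 / 2 ∧
      (1 - ε / c) ^ (2 * q) < 1 / (2 * (m + 1)) := by
  have hc0 : 0 < c := hM.trans hc
  have h3 : (0 : ℝ) < m + 1 := by positivity
  have ha0 : 0 ≤ M / c := by positivity
  have ha1 : M / c < 1 := (div_lt_one hc0).2 hc
  have hb0 : 0 ≤ 1 - ε / c := by
    rw [sub_nonneg, div_le_one hc0]; exact hεc
  have hb1 : 1 - ε / c < 1 := by
    have : 0 < ε / c := by positivity
    linarith
  have hta : Tendsto (fun q : ℕ => ((m : ℝ) + 1) * (M / c) ^ q) atTop (𝓝 ((m + 1) * 0)) :=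
    (tendsto_pow_atTop_nhds_zero_of_lt_one ha0 ha1).const_mul _
  rw [mul_zero] at hta
  have htb := tendsto_pow_atTop_nhds_zero_of_lt_one hb0 hb1
  have hea : ∀ᶠ q : ℕ in atTop, ((m : ℝ) + 1) * (M / c) ^ q < 1 / 2 :=
    hta.eventually_lt_const (by norm_num)
  have heb : ∀ᶠ q : ℕ in atTop, (1 - ε / c) ^ q < 1 / (2 * ((m : ℝ) + 1)) :=
    htb.eventually_lt_const (by positivity)
  obtain ⟨N, hN⟩ := eventually_atTop.1 (hea.and heb)
  exact ⟨N + 1, by omega, (hN (2 * (N + 1)) (by omega)).1, (hN (2 * (N + 1)) (by omega)).2⟩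

end

/-! ### radial projection to the superball -/

/-- the radius of the superball in the direction `u` -/
def lam {n : ℕ} (q : ℕ) (c s : ℝ) (u : E n) : ℝ :=
  c * (s / Gs q 1 u) ^ ((((2 * q : ℕ) : ℝ))⁻¹)

theorem Gs_smul {n : ℕ} (q : ℕ) (c t : ℝ) (u : E n) :
    Gs q c (t • u) = (t / c) ^ (2 * q) * Gs q 1 u := by
  unfold Gs
  rw [Finset.mul_sum]
  refine Finset.sum_congr rfl fun i _ => ?_
  rw [div_one, ← mul_pow, PiLp.smul_apply, smul_eq_mul]
  congr 1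
  ring

theorem Gs_one_pos {n : ℕ} {q : ℕ} {u : E n} (hu : u ≠ 0) : 0 < Gs q 1 u := by
  obtain ⟨i, hi⟩ : ∃ i, u i ≠ 0 := by
    by_contra hcon
    push Not at hcon
    exact hu (by ext i; simpa using hcon i)
  refine lt_of_lt_of_le ?_ (Gs_term_le q 1 u i)
  rw [div_one, pow_mul]
  positivity

theorem Gs_lam {n : ℕ} {q : ℕ} (hq : 1 ≤ q) {c s : ℝ} (hc : 0 < c) (hs : 0 < s) {u : E n}
    (hu : u ≠ 0) : Gs q c (lam q c s u • u) = s := by
  have h1 := Gs_one_pos (q := q) hu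
  rw [Gs_smul]
  unfold lam
  rw [mul_div_cancel_left₀ _ hc.ne', Real.rpow_inv_natCast_pow (by positivity) (by omega)]
  field_simp

theorem lam_pos {n : ℕ} {q : ℕ} {c s : ℝ} (hc : 0 < c) (hs : 0 < s) {u : E n}
    (hu : u ≠ 0) : 0 < lam q c s u := by
  have h1 := Gs_one_pos (q := q) hu
  unfold lam
  positivity

theorem eq_lam {n : ℕ} {q : ℕ} (hq : 1 ≤ q) {c s : ℝ} (hc : 0 < c) {t : ℝ} (ht : 0 < t)
    {u : E n} (hu : u ≠ 0) (h : Gs q c (t • u) = s) : t = lam q c s u := by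
  have h1 := Gs_one_pos (q := q) hu
  rw [Gs_smul] at h
  unfold lam
  have h2 : s / Gs q 1 u = (t / c) ^ (2 * q) := by
    rw [← h]; field_simp
  rw [h2, Real.pow_rpow_inv_natCast (by positivity) (by omega)]
  field_simp

theorem lam_continuous {n : ℕ} {Z : Type} [TopologicalSpace Z] (q : ℕ) (c s : ℝ) {u : Z → E n}
    (hu : Continuous u) (h0 : ∀ z, u z ≠ 0) : Continuous (fun z => lam q c s (u z)) := by
  unfold lam
  have h1 : Continuous (fun z => Gs q 1 (u z)) := (Gs_contDiff q 1).continuous.comp hu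
  have h2 : Continuous (fun z => s / Gs q 1 (u z)) :=
    continuous_const.div h1 fun z => (Gs_one_pos (h0 z)).ne'
  exact continuous_const.mul (h2.rpow_const fun z => Or.inr (by positivity))

end Pool.Agent.Y748.SH
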